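import Pool.Agent.TDV.Stmts

/-!
# Squad TDV, module FIN: the theorem
-/

set_option autoImplicit false

noncomputable section

namespace Pool.Agent.TDV.H65

open Pool.Agent.Helper25TD Pool.Agent.Helper56TB Pool.Agent.TDV

theorem below_even {x b : ℕ → Bool} {r : ℕ} (hr : r < 2)
    (h : ∀ n, x (2 * (2 * n) + r) = x (2 * n + r) ∧ x (2 * (2 * n + 1) + r) = b n) :
    Below b x := by
  refine ⟨1, r, by omega, fun n => ?_⟩
  rw [pow_one]
  exact h n

/-- a play against the copies of a coded real -/
theorem coded (hVLM : VlmStmt) {x : ℕ → Bool} {d : List Bool → Bool} {r : ℕ} (hr : r < 2)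
    (hx : ∀ n, x (2 * n + r) = if 2 * n + r = r then false else
      d ((pre x (2 * n + r)).take (mu n))) :
    Below (fun n => d (pre x n)) x := by
  obtain ⟨-, -, h3, h4, h5, -⟩ := hVLM
  have hx' : ∀ n, n ≠ 0 → x (2 * n + r) = d (pre x (mu n)) := by
    intro n hn
    rw [hx n, if_neg (by omega), take_pre x]
    have := h5 n
    omega
  apply below_even hr
  intro n
  constructor
  · by_cases hn : n = 0
    · subst hn
      rfl
    · rw [hx' (2 * n) (by omega), hx' n hn, h3 n hn]
  · rw [hx' (2 * n + 1) (by omega), h4]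

theorem fin (hVCL : VclStmt) (hVLM : VlmStmt) (hTUR : TurStmt) (hINV : InvStmt)
    (hPLY : PlyStmt) : FinStmt := by
  intro A hA
  have hTI : TuringInvariant (K ⁻¹' A) := by
    intro x y hxy hyx hx
    exact (hVCL (K x) (K y) (hTUR x y hxy) (hTUR y x hyx) A hA).1 hx
  refine ⟨hTI, ⟨?_, ?_⟩, ⟨?_, ?_⟩⟩
  · intro h
    obtain ⟨z, hz⟩ := cone_of_winsI hTI h
    obtain ⟨d, hd⟩ := hINV z
    refine ⟨fun p => if p.length = 0 then false else d (p.take (mu (p.length / 2))),
      fun x hx => ?_⟩
    obtain ⟨y, hzy, hKy, hxK⟩ := hd x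
    have h1 : Below (K y) x := by
      have h2 := coded hVLM (x := x) (d := d) (r := 0) (by norm_num) (fun n => by
        have h3 := hx n
        simp only [length_pre] at h3
        rw [add_zero, h3]
        have h4 : 2 * n / 2 = n := by omega
        rw [h4])
      have h3 : (fun n => d (pre x n)) = K y := by
        funext n
        exact (hKy n).symm
      rwa [h3] at h2
    exact (hVCL x (K y) hxK h1 A hA).2 (hz y hzy)
  · rintro ⟨σ, hσ⟩
    obtain ⟨z, hz⟩ := hPLY σ
    apply winsI_of_cone (z := z)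
    intro y hy
    have h1 := hz y hy 0 (by norm_num) (play 0 σ (pw (K y))) (fun n hn => play_eq 0 σ _ hn)
      (fun n hn => play_ne 0 σ _ hn)
    exact (h1 A hA).1 (hσ _ fun n => play_eq 0 σ _ (by omega))
  · intro h
    obtain ⟨z, hz⟩ := cone_of_winsII hTI h
    obtain ⟨d, hd⟩ := hINV z
    refine ⟨fun p => if p.length = 1 then false else d (p.take (mu (p.length / 2))),
      fun x hx => ?_⟩
    obtain ⟨y, hzy, hKy, hxK⟩ := hd x
    have h1 : Below (K y) x := by
      have h2 := coded hVLM (x := x) (d := d) (r := 1) (by norm_num) (fun n => by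
        have h3 := hx n
        simp only [length_pre] at h3
        rw [h3]
        have h4 : (2 * n + 1) / 2 = n := by omega
        rw [h4])
      have h3 : (fun n => d (pre x n)) = K y := by
        funext n
        exact (hKy n).symm
      rwa [h3] at h2
    intro hxA
    exact hz y hzy ((hVCL x (K y) hxK h1 A hA).1 hxA)
  · rintro ⟨τ, hτ⟩
    obtain ⟨z, hz⟩ := hPLY τ
    apply winsII_of_cone (z := z)
    intro y hy hyA
    have h1 := hz y hy 1 (by norm_num) (play 1 τ (pw (K y))) (fun n hn => play_eq 1 τ _ hn)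
      (fun n hn => play_ne 1 τ _ hn)
    exact hτ _ (fun n => play_eq 1 τ _ (by omega)) ((h1 A hA).2 hyA)

end Pool.Agent.TDV.H65
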