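import Pool.Agent.TDV.Stmts

/-!
# Squad TDV, module PLY: the play against the copies of `K y`
-/

set_option autoImplicit false

noncomputable section

namespace Pool.Agent.TDV.H65

open Pool.Agent.Helper25TD Pool.Agent.Helper56TB Pool.Agent.TDV

theorem getD_pre (x : ℕ → Bool) {n i : ℕ} (h : i < n) : (pre x n).getD i false = x i := by
  rw [List.getD_eq_getElem?_getD, getElem?_pre x h]
  rfl

theorem ply (hVCL : VclStmt) (hVLM : VlmStmt) (hLMP : LmpStmt) : PlyStmt := by
  obtain ⟨-, -, h3, h4, h5, -, -, hmu, -, -⟩ := hVLM
  intro s
  refine ⟨fun n => (Encodable.decode (α := List Bool) n).elim false s, ?_⟩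
  intro y hy r hr x hx1 hx2
  obtain ⟨z, hz⟩ : ∃ z : ℕ → Bool, z = fun n => (Encodable.decode (α := List Bool) n).elim false s :=
    ⟨_, rfl⟩
  rw [← hz] at hy
  have hzs : ∀ p : List Bool, z (Encodable.encode p) = s p := by
    intro p
    rw [hz]
    simp [Encodable.encodek]
  obtain ⟨G, hG, hG'⟩ := exists_approx y (f := chi z) (RecursiveIn.iff_nat.1 hy)
  have hKx : Below (K y) x := by
    refine ⟨1, 1 - r, by omega, fun n => ?_⟩
    rw [pow_one]
    have e1 : ∀ m, x (2 * m + (1 - r)) = pw (K y) m := by
      intro m
      rw [hx2 _ (by omega)]
      congr 1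
      omega
    rw [e1, e1, e1]
    unfold pw
    constructor
    · by_cases hn : n = 0
      · subst hn
        rfl
      · rw [if_neg (by omega), if_neg hn, h3 n hn]
    · rw [if_neg (by omega), h4]
  have hxK : Below x (K y) := by
    apply hLMP y x (fun q => if q.1.1.length % 2 = r then
      decide (G q.2 (Encodable.encode q.1.1) = some 1) else
      decide (q.1.1.length / 2 ≠ 0) && q.1.2.getD (mu (q.1.1.length / 2)) false)
    · have hα : Primrec fun q : (List Bool × List Bool) × List Bool => q.1.1 :=
        Primrec.fst.comp Primrec.fst
      have hlen : Primrec fun q : (List Bool × List Bool) × List Bool => q.1.1.length :=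
        Primrec.list_length.comp hα
      have hhalf : Primrec fun q : (List Bool × List Bool) × List Bool => q.1.1.length / 2 :=
        Primrec.nat_div.comp hlen (Primrec.const 2)
      refine Primrec.ite (Primrec.eq.comp (Primrec.nat_mod.comp hlen (Primrec.const 2))
        (Primrec.const r)) ?_ ?_
      · exact (Primrec.eq.comp (hG.comp Primrec.snd (Primrec.encode.comp hα))
          (Primrec.const (some 1))).decide
      · refine Primrec.and.comp ?_ ?_
        · exact ((Primrec.eq.comp hhalf (Primrec.const 0)).not).decide
        · exact (Primrec.list_getD false).comp (Primrec.snd.comp Primrec.fst) (hmu.comp hhalf)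
    · intro n
      simp only [length_pre]
      by_cases hn : n % 2 = r
      · simp only [if_pos hn, decide_eq_true_eq]
        rw [hx1 n hn, ← hzs]
        constructor
        · intro h
          obtain ⟨N, hN⟩ := hG'.2 (Encodable.encode (pre x n)) 1 (by
            change 1 ∈ Part.some (z (Encodable.encode (pre x n))).toNat
            rw [h]
            exact Part.mem_some _)
          exact ⟨N, hN N le_rfl⟩
        · rintro ⟨N, hN⟩
          have h := hG'.1 _ _ _ hN
          have h' : 1 = (z (Encodable.encode (pre x n))).toNat := by
            simpa [chi] using h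
          cases hb : z (Encodable.encode (pre x n)) with
          | false => rw [hb] at h'; simp at h'
          | true => rfl
      · simp only [if_neg hn]
        rw [hx2 n hn]
        unfold pw
        by_cases hk : n / 2 = 0
        · rw [if_pos hk]
          simp [hk]
        · rw [if_neg hk]
          have h6 := h5 (n / 2)
          rw [getD_pre (K y) (show mu (n / 2) < n + 1 by omega)]
          simp [hk]
  exact hVCL x (K y) hxK hKx

end Pool.Agent.TDV.H65
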